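import Mathlib
import Pool.Agent.H92.Final

open CategoryTheory Limits AlgebraicGeometry Pool.Agent.H92

universe w u

namespace Pool.Agent.Results.MP_ec58e7_ag.Pushforward

/-- Every bounded complex of coherent sheaves on the projective space `P^m` over a field is
isomorphic, in the derived category of sheaves of modules, to a shift of the derived direct image
of a vector bundle under the projection from `P^m × P^1 × ... × P^1` (with `t ≥ 1` factors `P^1`).
-/
theorem result (K : Type u) [Field K] (m : ℕ)
    [∀ X : Scheme.{u}, HasDerivedCategory.{w} X.Modules]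
    (C : CochainComplex (PSpace K m).Modules ℤ) (hC : IsBddCoh C) :
    ∃ (t : ℕ) (Y : Scheme.{u}) (p : Y ⟶ PSpace K m) (q : Fin t → (Y ⟶ PSpace K 1))
      (E : Y.Modules) (s : ℤ), 1 ≤ t ∧ IsProdWith (PSpace.toSpec K m) (PSpace.toSpec K 1) p q ∧
        IsVB E ∧ IsRPushOf p E s C :=
  main K m C hC

end Pool.Agent.Results.MP_ec58e7_ag.Pushforward
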